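import Pool.Agent.helper70.NZ.SpecA

/-!
# Row nz:YUE (MP_baa4d7_al): a common unit class
-/

set_option autoImplicit false

namespace Pool.Agent.ND.NY.E

open Pool.Agent.helper58.DC Pool.Agent.DI Pool.Agent.GR Pool.Agent.OB Pool.Agent.DR Pool.Agent.FI Pool.Agent.FI3 Pool.Agent.FI4 Pool.Agent.FI4I Pool.Agent.LE Pool.Agent.L5 Pool.Agent.NAB Pool.Agent.NE
open Pool.Agent.ZB (Pm Om KZ EQ BQ lQ MZc BDK)

theorem YUE (hGBC : GBC_stmt) (hYE1 : YE1_stmt) (hZXU : Pool.Agent.ZB.ZXU_stmt) (hZHE : Pool.Agent.ZB.ZHE_stmt)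
    (hZQD : Pool.Agent.ZB.ZQD_stmt) (hZE1 : Pool.Agent.ZB.ZE1_stmt) (hZE2 : Pool.Agent.ZB.ZE2_stmt)
    (hZQU : Pool.Agent.ZB.ZQU_stmt) (hNDG : NDG_stmt) (hNUF : NUF_stmt) (hNUD : NUD_stmt) (hNUB : NUB_stmt)
    (hZNU : ZNU_stmt) (hZGP : ZGP_stmt) (hNEG : NEG_stmt) (hFEQ : Pool.Agent.FI.FEQ_stmt) : YUE_stmt := by
  intro p e m t M hM G _ _ χ Z z₁ x₁ hD
  obtain ⟨hem, ht, hχ', hU₁, hZ₁⟩ := hD
  have hp : p.Prime := hM.pr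
  have hme3 : m.a + 3 ≤ e := by omega
  have hcc : ∀ (g h : G) (P : Subgroup G), cjS g (cjS h P) = cjS (g * h) P := fun g h P =>
    (hFEQ G M g h P P P χ χ χ).1.1
  have hc1 : ∀ P : Subgroup G, cjS (1 : G) P = P := fun P => (hFEQ G M 1 1 P P P χ χ χ).1.2.2.1
  have hcn : ∀ (g : G) (P : Subgroup G), cjS g P = P ↔ g ∈ nz P := fun g P =>
    (hFEQ G M g 1 P P P χ χ χ).2.1.2.2.2.1
  -- the defect group
  obtain ⟨D, y₀, hDD, hzD, hzDc, hKD⟩ := (hNUD p e m M hM G ⊤ χ hχ' z₁ x₁ hU₁).2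
  obtain ⟨k1, -, k3, -, k5, k6, -⟩ := (hYE1 p hp m G D).1 e hKD
  have hED : Eg p e z₁ = EQ p m.s D := k6 z₁ hzD hU₁.od
  obtain ⟨η₀, hη₀⟩ := hZXU p m M hM G ⊤ χ hχ' D y₀ hDD k1
  rw [← hED] at hη₀
  have hQ := (hZQU p m M hM G ⊤ (Eg p e z₁) χ hχ' D y₀ hDD k1 η₀ hη₀).1
  obtain ⟨h1, h2, Q, y, hQy, hKQ, hEQ⟩ := hη₀
  obtain ⟨-, -, -, q4, q5, q6, -⟩ := hZE1 p hp m G Q hKQ
  rw [hEQ] at q4 q5 q6
  have hloc : ⊤ ⊓ cz Q ≤ ⊤ ⊓ nz (Eg p e z₁) := inf_le_inf_left _ (q5.trans q6)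
  have hin : ∀ l : G, cjS l Q ≤ D → l ∈ nz (Eg p e z₁) := by
    intro l hl
    obtain ⟨c1, c2⟩ := (hZE2 p hp m G Q hKQ).2.2 l
    have c3 := (hZE2 p hp m G D k1).1 _ c1 hl
    rw [c2, hEQ, ← hED] at c3
    exact (hcn l _).1 c3
  have hDn : D ≤ nz (Eg p e z₁) := by
    obtain ⟨-, -, -, d4, -, d6, -⟩ := hZE1 p hp m G D k1
    rw [← hED] at d4 d6
    exact d4.trans d6
  obtain ⟨l, -, hl1, -⟩ := hZHE p M hM G ⊤ (⊤ ⊓ nz (Eg p e z₁)) inf_le_left χ hχ' D y₀ hDD η₀ h1 h2 Q y hQy hloc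
  have hcard := hZQD p M hM G ⊤ (⊤ ⊓ nz (Eg p e z₁)) inf_le_left χ hχ' D y₀ hDD η₀ h1 h2 Q y hQy hloc (by
    intro l _ hl
    rw [top_inf_eq]
    intro d hd
    rw [mem_cjS, inv_inv] at hd
    have hl' := hin l hl
    have := (nz (Eg p e z₁)).mul_mem ((nz (Eg p e z₁)).mul_mem ((nz (Eg p e z₁)).inv_mem hl') (hDn hd)) hl'
    have e1 : l⁻¹ * (l * d * l⁻¹) * l = d := by group
    rwa [e1] at this)
  have hlQ : cjS l Q = D := by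
    refine Subgroup.eq_of_le_of_card_ge hl1 ?_
    rw [← hcard]
    exact (Nat.card_congr (Q.equivMapOfInjective _ (MulAut.conj l).injective).toEquiv).le
  have hKYQ : KY p e m Q := by
    have := k5 l⁻¹
    rwa [← hlQ, hcc, inv_mul_cancel, hc1] at this
  obtain ⟨-, -, -, -, -, r6, z', hz'Q, hz'c, hz'o⟩ := (hYE1 p hp m G Q).1 e hKYQ
  have h4 : Eg p e z' = Eg p e z₁ := (r6 z' hz'Q hz'o).trans hEQ
  have hyc : ∀ d ∈ Q, d * y = y * d := by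
    intro d hd
    have h5 : d ∈ Subgroup.centralizer ({y} : Set G) := (hQy.le hd).2
    have h6 := Subgroup.mem_centralizer_singleton_iff.1 h5
    first
      | exact h6
      | exact h6.symm
  have hpe : PEl p z' := ⟨e, by rw [← hz'o, pow_orderOf_eq_one]⟩
  have h3 : Ucl p e m M (⊤ ⊓ nz (Eg p e z₁)) η₀ z' y :=
    ⟨hpe, hQy.reg, hyc z' hz'Q, (hQy.le hz'Q).1, hQy.mem, hz'o, hNDG p M hM G _ η₀ h1 Q y hQy z' hz'Q hz'c, Q, y, hQy, hKYQ⟩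
  have hU' := hNUF p e m M hM G ⊤ (Eg p e z₁) η₀ h1 z' y h3 h4 χ h2 ⟨D, y₀, hDD, hKD⟩
  rw [top_inf_eq] at hQ h1 h3
  obtain ⟨k, -, hk⟩ := (hZNU p e m M hM hem G ⊤ χ hχ' z₁ x₁ hU₁).1 z' y hU'
  rw [hZ₁] at hk
  -- group theory
  obtain ⟨a1, -, -, -, -, -, -, -⟩ := hZGP p e m.a hp hme3 G z' h3.pe h3.od
  obtain ⟨-, -, -, b4, -, -, -, -⟩ := hZGP p e m.a hp hme3 G z₁ hU₁.pe hU₁.od
  have hUT := (hNUB p e m M hM G ⊤ χ z' y hU').2.2 k⁻¹ (Subgroup.mem_top _)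
  set z : G := k⁻¹ * z' * k⁻¹⁻¹ with hz
  set x : G := k⁻¹ * y * k⁻¹⁻¹ with hx
  have hZz : Zg p e m.a z = Z := by
    rw [hz, a1, hk, hcc, inv_mul_cancel, hc1]
  have hEz : Eg p e z = Eg p e z₁ := b4.2 z hUT.pe hUT.od (hZz.trans hZ₁.symm)
  have hEz' : Eg p e z = cjS k⁻¹ (Eg p e z') := by
    rw [hz]
    exact (hNEG p e hp G z').1 k⁻¹
  have hkE : k⁻¹ ∈ nz (Eg p e z₁) := by
    rw [← hcn, ← h4, ← hEz', hEz, h4]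
  have hUN := (hNUB p e m M hM G _ η₀ z' y h3).2.2 k⁻¹ hkE
  rw [← hz, ← hx] at hUN
  obtain ⟨-, -, -, g4, g5, g6, -, -⟩ := hZGP p e m.a hp hme3 G z hUT.pe hUT.od
  rw [hZz, hEz] at g4 g5
  rw [hZz] at g6
  have hGT : GS p e m M χ (⊤ : Subgroup G) Z = Bl M (⊤ : Subgroup G) χ :=
    (hGBC p e m M hM hme3 G χ ⊤ Z).2.1 hχ' z x hUT hZz
  have hUN1 : ∀ ψ ∈ BQ p m M (⊤ : Subgroup G) (nz (Eg p e z₁)) (Eg p e z₁) χ, Ucl p e m M (nz (Eg p e z₁)) ψ z x := by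
    intro ψ hψ
    rw [hQ] at hψ
    exact (hNUB p e m M hM G _ η₀ z x hUN).1 ψ hψ.2.symm
  have hGN : GS p e m M χ (nz (Eg p e z₁)) Z = BQ p m M (⊤ : Subgroup G) (nz (Eg p e z₁)) (Eg p e z₁) χ := by
    ext ψ
    constructor
    · rintro ⟨a1, a2, z'', x'', a3, a4⟩
      obtain ⟨D', y', u1, u2, -, u4⟩ := (hNUD p e m M hM G _ ψ a1 z'' x'' a3).2
      obtain ⟨v1, -, -, -, -, v6, -⟩ := (hYE1 p hp m G D').1 e u4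
      exact ⟨a1, a2, D', y', u1, v1, (v6 z'' u2 a3.od).symm.trans (g4.2 z'' a3.pe a3.od a4)⟩
    · intro hψ
      exact ⟨hψ.1, hψ.2.1, z, x, hUN1 ψ hψ, hZz⟩
  refine ⟨z, x, ⟨hem, ht, hχ', hUT, hZz⟩, hEz, ?_, ?_, hGT, hGN, g6.1 x hUT.re hUT.co, g5.2.1, g5.2.2.1⟩
  · intro ψ hψ
    rw [hGT] at hψ
    exact (hNUB p e m M hM G _ χ z x hUT).1 ψ hψ.2.symm
  · intro ψ hψ
    rw [hGN] at hψ
    exact hUN1 ψ hψ

end Pool.Agent.ND.NY.E
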